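import Mathlib

/-!
# A set function of bounded variation that is not a difference of bounded submodular functions

On all subsets of `J = ℕ ⊕ ℕ` let `φ X = 1` if for some `l` the set `X` contains all `inl k` with
`k < l` and all `inr k` with `k ≥ l`, and `φ X = 0` otherwise.  This function is increasing, and it
is not the difference of two bounded submodular set functions.
-/

namespace Pool.Agent.Results.MP_2db6a9_co.NotDifference

open Classical

/-- `φ` is increasing on the family `B`. -/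
def IsIncreasing {J : Type} (B : Set (Set J)) (φ : Set J → ℝ) : Prop :=
  ∀ X ∈ B, ∀ Y ∈ B, X ⊆ Y → φ X ≤ φ Y

/-- `φ` is bounded on the family `B`. -/
def IsBdd {J : Type} (B : Set (Set J)) (φ : Set J → ℝ) : Prop :=
  ∃ b : ℝ, ∀ X ∈ B, |φ X| ≤ b

/-- `φ` is submodular on the family `B`. -/
def IsSubmodular {J : Type} (B : Set (Set J)) (φ : Set J → ℝ) : Prop :=
  ∀ X ∈ B, ∀ Y ∈ B, φ (X ∩ Y) + φ (X ∪ Y) ≤ φ X + φ Y

/-- `φ` has bounded variation on the family `B`: it is a difference of two increasing set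
functions. -/
def HasBoundedVariation {J : Type} (B : Set (Set J)) (φ : Set J → ℝ) : Prop :=
  ∃ f g : Set J → ℝ, IsIncreasing B f ∧ IsIncreasing B g ∧ ∀ X ∈ B, φ X = f X - g X

/-- The staircase property. -/
def Stair (X : Set (ℕ ⊕ ℕ)) : Prop :=
  ∃ l : ℕ, (∀ k, k < l → Sum.inl k ∈ X) ∧ ∀ k, l ≤ k → Sum.inr k ∈ X

/-- The set function `φ`. -/
noncomputable def phi (X : Set (ℕ ⊕ ℕ)) : ℝ := if Stair X then 1 else 0

/-- The set `{inl k : k < i} ∪ {inr k : k ≥ j}`. -/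
def grid (i j : ℕ) : Set (ℕ ⊕ ℕ) := {x | (∃ k, k < i ∧ x = Sum.inl k) ∨ ∃ k, j ≤ k ∧ x = Sum.inr k}

theorem inl_mem_grid {i j k : ℕ} : (Sum.inl k : ℕ ⊕ ℕ) ∈ grid i j ↔ k < i := by
  simp [grid]

theorem inr_mem_grid {i j k : ℕ} : (Sum.inr k : ℕ ⊕ ℕ) ∈ grid i j ↔ j ≤ k := by
  simp [grid]

theorem stair_grid (i j : ℕ) : Stair (grid i j) ↔ j ≤ i := by
  constructor
  · rintro ⟨l, h1, h2⟩
    have h3 : j ≤ l := inr_mem_grid.1 (h2 l le_rfl)
    rcases Nat.eq_zero_or_pos l with h0 | h0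
    · omega
    · have h4 : l - 1 < i := inl_mem_grid.1 (h1 (l - 1) (by omega))
      omega
  · intro h
    exact ⟨i, fun k hk => inl_mem_grid.2 hk, fun k hk => inr_mem_grid.2 (h.trans hk)⟩

theorem phi_grid (i j : ℕ) : phi (grid i j) = if j ≤ i then 1 else 0 := by
  unfold phi
  simp only [stair_grid]

theorem grid_inter (i j : ℕ) : grid (i + 1) (j + 1) ∩ grid i j = grid i (j + 1) := by
  ext (k | k)
  · simp only [Set.mem_inter_iff, inl_mem_grid]; omega
  · simp only [Set.mem_inter_iff, inr_mem_grid]; omega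

theorem grid_union (i j : ℕ) : grid (i + 1) (j + 1) ∪ grid i j = grid (i + 1) j := by
  ext (k | k)
  · simp only [Set.mem_union, inl_mem_grid]; omega
  · simp only [Set.mem_union, inr_mem_grid]; omega

/-- The double difference of a set function on the grid. -/
noncomputable def D (ψ : Set (ℕ ⊕ ℕ) → ℝ) (i j : ℕ) : ℝ :=
  ψ (grid (i + 1) (j + 1)) + ψ (grid i j) - ψ (grid i (j + 1)) - ψ (grid (i + 1) j)

theorem D_nonneg {ψ : Set (ℕ ⊕ ℕ) → ℝ} (h : IsSubmodular Set.univ ψ) (i j : ℕ) : 0 ≤ D ψ i j := by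
  have := h (grid (i + 1) (j + 1)) trivial (grid i j) trivial
  rw [grid_inter, grid_union] at this
  unfold D
  linarith

theorem sum_D (ψ : Set (ℕ ⊕ ℕ) → ℝ) (N : ℕ) :
    ∑ i ∈ Finset.range N, ∑ j ∈ Finset.range N, D ψ i j =
      ψ (grid N N) + ψ (grid 0 0) - ψ (grid 0 N) - ψ (grid N 0) := by
  have h1 : ∀ i, ∑ j ∈ Finset.range N, D ψ i j =
      (ψ (grid (i + 1) N) - ψ (grid i N)) - (ψ (grid (i + 1) 0) - ψ (grid i 0)) := by
    intro i
    have : ∀ j, D ψ i j = (ψ (grid (i + 1) (j + 1)) - ψ (grid i (j + 1))) -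
        (ψ (grid (i + 1) j) - ψ (grid i j)) := by
      intro j; unfold D; ring
    rw [Finset.sum_congr rfl (fun j _ => this j),
      Finset.sum_range_sub (fun j => ψ (grid (i + 1) j) - ψ (grid i j))]
  rw [Finset.sum_congr rfl (fun i _ => h1 i), Finset.sum_sub_distrib,
    Finset.sum_range_sub (fun i => ψ (grid i N)), Finset.sum_range_sub (fun i => ψ (grid i 0))]
  ring

theorem D_phi_diag (i : ℕ) : D phi i i = 1 := by
  unfold D
  rw [phi_grid, phi_grid, phi_grid, phi_grid]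
  simp

/-- A bounded submodular function minus a submodular function is never `phi`. -/
theorem not_difference (ψ₁ ψ₂ : Set (ℕ ⊕ ℕ) → ℝ) (hb : IsBdd Set.univ ψ₁)
    (h₁ : IsSubmodular Set.univ ψ₁) (h₂ : IsSubmodular Set.univ ψ₂)
    (h : ∀ X, phi X = ψ₁ X - ψ₂ X) : False := by
  obtain ⟨b, hb⟩ := hb
  obtain ⟨N, hN⟩ := exists_nat_gt (4 * b)
  have hD : ∀ i j, D phi i j = D ψ₁ i j - D ψ₂ i j := by
    intro i j
    unfold D
    rw [h, h, h, h]
    ring
  have hdiag : ∀ i, 1 ≤ D ψ₁ i i := by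
    intro i
    have h3 := hD i i
    rw [D_phi_diag] at h3
    linarith [D_nonneg h₂ i i]
  have hlow : (N : ℝ) ≤ ∑ i ∈ Finset.range N, ∑ j ∈ Finset.range N, D ψ₁ i j := by
    calc (N : ℝ) = ∑ i ∈ Finset.range N, (1 : ℝ) := by simp
      _ ≤ ∑ i ∈ Finset.range N, ∑ j ∈ Finset.range N, D ψ₁ i j := by
        refine Finset.sum_le_sum fun i hi => ?_
        exact (hdiag i).trans (Finset.single_le_sum (f := fun j => D ψ₁ i j)
          (fun j _ => D_nonneg h₁ i j) hi)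
  rw [sum_D] at hlow
  have e1 := abs_le.1 (hb (grid N N) trivial)
  have e2 := abs_le.1 (hb (grid 0 0) trivial)
  have e3 := abs_le.1 (hb (grid 0 N) trivial)
  have e4 := abs_le.1 (hb (grid N 0) trivial)
  linarith [e1.2, e2.2, e3.1, e4.1]

/-- There are a set algebra and a set function of bounded variation on it that is not a difference
of two bounded submodular set functions. -/
theorem result : ∃ (J : Type) (B : Set (Set J)) (φ : Set J → ℝ),
    MeasureTheory.IsSetAlgebra B ∧ HasBoundedVariation B φ ∧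
      ¬ ∃ ψ₁ ψ₂ : Set J → ℝ, IsBdd B ψ₁ ∧ IsSubmodular B ψ₁ ∧ IsBdd B ψ₂ ∧ IsSubmodular B ψ₂ ∧
        ∀ X ∈ B, φ X = ψ₁ X - ψ₂ X := by
  refine ⟨ℕ ⊕ ℕ, Set.univ, phi, ⟨trivial, fun _ _ => trivial, fun _ _ _ _ => trivial⟩, ?_, ?_⟩
  · refine ⟨phi, fun _ => 0, ?_, fun _ _ _ _ _ => le_rfl, fun X _ => by simp⟩
    intro X _ Y _ hXY
    unfold phi
    by_cases hX : Stair X
    · obtain ⟨l, h1, h2⟩ := hX
      have hY : Stair Y := ⟨l, fun k hk => hXY (h1 k hk), fun k hk => hXY (h2 k hk)⟩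
      rw [if_pos ⟨l, h1, h2⟩, if_pos hY]
    · rw [if_neg hX]
      split_ifs <;> norm_num
  · rintro ⟨ψ₁, ψ₂, hb, h₁, _, h₂, h⟩
    exact not_difference ψ₁ ψ₂ hb h₁ h₂ (fun X => h X trivial)

end Pool.Agent.Results.MP_2db6a9_co.NotDifference
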